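import Pool.Agent.X144.DB.FBound
import Pool.Agent.Results.MP_fe4852_pr.PointwiseOptimality

/-!
# The pointwise minimum of two disagreement bounds is a disagreement bound

Every disagreement bound is at least `F(x) = 2x/(1+x)` on `[0,1]` (the answer to MP_fe4852_pr), and
`F` itself, hence every function from `[0,1]` to `[0,1]` above `F`, is a disagreement bound (the
rejection sampling coupling, formalised in `Pool/Agent/X144/DB/FBound.lean`).
-/

set_option autoImplicit false

namespace Pool.Agent.Results.MP_4c6e08_pr.ClosureUnderMinimum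

open Pool.Agent.X144.DB

/-- The pointwise minimum of two disagreement bounds is a disagreement bound; more generally, a
function is a disagreement bound if and only if it maps `[0,1]` to `[0,1]` and is at least
`2x/(1+x)` there. -/
theorem result :
    (∀ f₁ f₂ : ℝ → ℝ, IsDisagreementBound f₁ → IsDisagreementBound f₂ →
      IsDisagreementBound (fun x => min (f₁ x) (f₂ x))) ∧
    (∀ f : ℝ → ℝ, IsDisagreementBound f ↔
      ∀ x ∈ Set.Icc (0 : ℝ) 1, 2 * x / (1 + x) ≤ f x ∧ f x ≤ 1) := by
  have key : ∀ f : ℝ → ℝ, IsDisagreementBound f → ∀ x ∈ Set.Icc (0 : ℝ) 1, 2 * x / (1 + x) ≤ f x :=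
    MP_fe4852_pr.PointwiseOptimality.result
  constructor
  · intro f₁ f₂ h₁ h₂
    refine bound_of_le (fun x hx => ⟨le_min (h₁.1 x hx).1 (h₂.1 x hx).1,
      (min_le_left _ _).trans (h₁.1 x hx).2⟩) fun x hx => le_min (key f₁ h₁ x hx) (key f₂ h₂ x hx)
  · intro f
    constructor
    · intro h x hx
      exact ⟨key f h x hx, (h.1 x hx).2⟩
    · intro h
      exact bound_of_le (fun x hx => ⟨(FF_mem hx).1.trans (h x hx).1, (h x hx).2⟩)
        fun x hx => (h x hx).1

end Pool.Agent.Results.MP_4c6e08_pr.ClosureUnderMinimum
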